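import Pool.Agent.Lib.MP_af3a4a_an.P1.CHK.DATA.N26x27.K0
import Pool.Agent.Lib.MP_af3a4a_an.P1.CHK.DATA.N26x27.K1
import Pool.Agent.Lib.MP_af3a4a_an.P1.CHK.DATA.N26x27.K2
import Pool.Agent.Lib.MP_af3a4a_an.P1.CHK.DATA.N26x27.K3

/-! glue for 26 <= N <= 27 (generated) -/

set_option autoImplicit false
set_option maxRecDepth 100000

namespace Pool.Agent.Lib.MP_af3a4a_an.P1.CHK.DATA.N26x27

open BOX

theorem g0 : ChunkP 26 27 512 1024 64 80 1488 2484 := ChunkP.r k7 k8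
theorem g1 : ChunkP 26 27 512 1024 64 80 1440 2484 := ChunkP.R k6 g0
theorem g2 : ChunkP 26 27 512 1024 64 80 1392 2484 := ChunkP.R k5 g1
theorem g3 : ChunkP 26 27 512 1024 64 80 1248 2484 := ChunkP.R k4 g2
theorem g4 : ChunkP 26 27 512 1024 64 80 1008 2484 := ChunkP.R k3 g3
theorem g5 : ChunkP 26 27 512 1024 64 80 0 2484 := ChunkP.R k2 g4
theorem g6 : ChunkP 26 27 768 1024 80 96 1680 2484 := ChunkP.g k18 k19
theorem g7 : ChunkP 26 27 768 1024 80 96 1632 2484 := ChunkP.R k17 g6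
theorem g8 : ChunkP 26 27 768 1024 80 96 1584 2484 := ChunkP.R k16 g7
theorem g9 : ChunkP 26 27 768 1024 80 96 1488 2484 := ChunkP.R k15 g8
theorem g10 : ChunkP 26 27 512 1024 80 96 1488 2484 := ChunkP.r k14 g9
theorem g11 : ChunkP 26 27 512 1024 80 96 1440 2484 := ChunkP.R k13 g10
theorem g12 : ChunkP 26 27 512 1024 80 96 1392 2484 := ChunkP.R k12 g11
theorem g13 : ChunkP 26 27 512 1024 80 96 1296 2484 := ChunkP.R k11 g12
theorem g14 : ChunkP 26 27 512 1024 80 96 1008 2484 := ChunkP.R k10 g13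
theorem g15 : ChunkP 26 27 512 1024 80 96 0 2484 := ChunkP.R k9 g14
theorem g16 : ChunkP 26 27 512 1024 64 96 0 2484 := ChunkP.g g5 g15
theorem g17 : ChunkP 26 27 512 1024 64 101 0 2484 := ChunkP.g g16 k20
theorem g18 : ChunkP 26 27 512 1024 0 101 0 2484 := ChunkP.g k1 g17
theorem g19 : ChunkP 26 27 0 1024 0 101 0 2484 := ChunkP.r k0 g18
theorem g20 : ChunkP 26 27 1024 1280 72 80 1632 2484 := ChunkP.r k33 k34
theorem g21 : ChunkP 26 27 1024 1280 72 80 1584 2484 := ChunkP.R k32 g20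
theorem g22 : ChunkP 26 27 1024 1280 72 80 1536 2484 := ChunkP.R k31 g21
theorem g23 : ChunkP 26 27 1024 1280 64 80 1536 2484 := ChunkP.g k30 g22
theorem g24 : ChunkP 26 27 1024 1280 64 80 1488 2484 := ChunkP.R k29 g23
theorem g25 : ChunkP 26 27 1024 1280 64 80 1440 2484 := ChunkP.R k28 g24
theorem g26 : ChunkP 26 27 1024 1280 64 80 1344 2484 := ChunkP.R k27 g25
theorem g27 : ChunkP 26 27 1024 1280 64 80 1152 2484 := ChunkP.R k26 g26
theorem g28 : ChunkP 26 27 1024 1280 64 80 720 2484 := ChunkP.R k25 g27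
theorem g29 : ChunkP 26 27 1280 1536 72 80 1392 2484 := ChunkP.R k40 k41
theorem g30 : ChunkP 26 27 1280 1536 64 80 1392 2484 := ChunkP.g k39 g29
theorem g31 : ChunkP 26 27 1280 1536 64 80 1344 2484 := ChunkP.R k38 g30
theorem g32 : ChunkP 26 27 1280 1536 64 80 1200 2484 := ChunkP.R k37 g31
theorem g33 : ChunkP 26 27 1280 1536 64 80 1056 2484 := ChunkP.R k36 g32
theorem g34 : ChunkP 26 27 1280 1536 64 80 720 2484 := ChunkP.R k35 g33
theorem g35 : ChunkP 26 27 1024 1536 64 80 720 2484 := ChunkP.r g28 g34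
theorem g36 : ChunkP 26 27 1024 1536 64 80 672 2484 := ChunkP.R k24 g35
theorem g37 : ChunkP 26 27 1024 1536 64 80 624 2484 := ChunkP.R k23 g36
theorem g38 : ChunkP 26 27 1024 1536 64 80 0 2484 := ChunkP.R k22 g37
theorem g39 : ChunkP 26 27 1024 1536 80 96 864 2484 := ChunkP.r k46 k47
theorem g40 : ChunkP 26 27 1024 1536 80 96 816 2484 := ChunkP.R k45 g39
theorem g41 : ChunkP 26 27 1024 1536 80 96 768 2484 := ChunkP.R k44 g40
theorem g42 : ChunkP 26 27 1024 1536 80 96 672 2484 := ChunkP.R k43 g41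
theorem g43 : ChunkP 26 27 1024 1536 80 96 0 2484 := ChunkP.R k42 g42
theorem g44 : ChunkP 26 27 1024 1536 64 96 0 2484 := ChunkP.g g38 g43
theorem g45 : ChunkP 26 27 1024 1536 64 101 0 2484 := ChunkP.g g44 k48
theorem g46 : ChunkP 26 27 1024 1536 0 101 0 2484 := ChunkP.g k21 g45
theorem g47 : ChunkP 26 27 1536 2048 64 96 0 2484 := ChunkP.g k50 k51
theorem g48 : ChunkP 26 27 1536 2048 64 101 0 2484 := ChunkP.g g47 k52
theorem g49 : ChunkP 26 27 1536 2048 0 101 0 2484 := ChunkP.g k49 g48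
theorem g50 : ChunkP 26 27 1024 2048 0 101 0 2484 := ChunkP.r g46 g49
theorem g51 : ChunkP 26 27 0 2048 0 101 0 2484 := ChunkP.r g19 g50
theorem g52 : ChunkP 26 27 2048 3072 0 101 0 2484 := ChunkP.r k53 k54
theorem g53 : ChunkP 26 27 2048 4096 0 101 0 2484 := ChunkP.r g52 k55
theorem g54 : ChunkP 26 27 0 4096 0 101 0 2484 := ChunkP.r g51 g53

/-- the whole box -/
theorem allBox : ChunkP 26 27 0 4096 0 101 0 2484 := g54

theorem full {N : ℕ} (hNa : 26 ≤ N) (hNb : N ≤ 27) {z w : Fin N → ℂ} {R : ℝ} {σ : Fin N → ℂ}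
    (hC : Pool.Agent.Lib.MP_af3a4a_an.P1.H80.Cfg2 N z w R σ) : ((2484 : ℕ) : ℝ) / 1024 < R := ChunkP.full allBox hNa hNb hC

end Pool.Agent.Lib.MP_af3a4a_an.P1.CHK.DATA.N26x27
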